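import Pool.Agent.T9h40.GP.Spec

/-!
# Assembly, part 1: notation and linearity
-/

open Polynomial Filter Topology Bornology

namespace Pool.Agent.T9h40.GP

theorem rg_symm (F G : ℝ → ℂ) : rg F G = - rg G F := by
  unfold rg
  rw [← intervalIntegral.integral_neg]
  congr 1
  ext θ
  ring

theorem rg_const_right (F : ℝ → ℂ) (c : ℂ) : rg F (fun _ => c) = - Real.log ‖c‖ * ww F := by
  unfold rg ww
  rw [← intervalIntegral.integral_const_mul]
  congr 1
  ext θ
  simp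

/-- `y_k - A_l(x_k)` along the path. -/
noncomputable def uu {n : ℕ} (A : Fin n → ℂ[X]) (l : Fin n) (γ : Pth) : ℝ → ℂ :=
  fun θ => γ.y θ - (A l).eval (γ.x θ)

theorem contDiff_uu {n : ℕ} (A : Fin n → ℂ[X]) (l : Fin n) (γ : Pth) :
    ContDiff ℝ 1 (uu A l γ) := by
  unfold uu
  have h1 : ContDiff ℝ 1 (fun z : ℂ => (A l).eval z) := by
    have : ContDiff ℂ 1 (fun z : ℂ => (A l).eval z) := (A l).differentiable.contDiff
    exact this.restrict_scalars ℝ
  exact γ.hy.sub (h1.comp γ.hx)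

theorem uu_closed {n : ℕ} (A : Fin n → ℂ[X]) (l : Fin n) (γ : Pth) :
    uu A l γ 0 = uu A l γ 1 := by
  simp [uu, γ.cx, γ.cy]

section
variable {n m : ℕ} (e : ℕ) (A : Fin n → ℂ[X]) (γ : Fin m → Pth) (y : Fin n → ℂ → ℂ)

/-- The matrix of the logarithms of the units on the branches. -/
noncomputable def MM (t : ℂ) : Matrix (Fin n) (Fin n) ℝ :=
  fun l i => Real.log ‖y i t - (A l).eval t‖ - e * Real.log ‖t‖

noncomputable def bc (a : Fin m → ℝ) (l : Fin n) (t : ℂ) : ℂ :=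
  ∑ k, (a k : ℂ) * qq (fun θ => deriv (uu A l (γ k)) θ / uu A l (γ k) θ) (γ k).x t⁻¹

noncomputable def bb (a : Fin m → ℝ) (l : Fin n) (t : ℂ) : ℝ := (bc A γ a l t).im

noncomputable def gc (a : Fin m → ℝ) (s t : ℂ) : ℂ :=
  ∑ k, (a k : ℂ) * qq (fun θ => deriv (γ k).y θ / ((γ k).y θ - s)) (γ k).x t⁻¹

noncomputable def gg (a : Fin m → ℝ) (s t : ℂ) : ℝ := (gc γ a s t).im

noncomputable def la (a : Fin m → ℝ) (j : Fin n) (t : ℂ) : ℝ :=
  ((MM e A y t)⁻¹.mulVec (fun l => bb A γ a l t)) j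

theorem bb_add (a b : Fin m → ℝ) (l : Fin n) (t : ℂ) :
    bb A γ (a + b) l t = bb A γ a l t + bb A γ b l t := by
  simp [bb, bc, add_mul, Finset.sum_add_distrib]

theorem bb_smul (c : ℝ) (a : Fin m → ℝ) (l : Fin n) (t : ℂ) :
    bb A γ (c • a) l t = c * bb A γ a l t := by
  have : bc A γ (c • a) l t = (c : ℂ) * bc A γ a l t := by
    simp [bc, Finset.mul_sum, mul_assoc]
  simp [bb, this]

theorem gg_add (a b : Fin m → ℝ) (s t : ℂ) :
    gg γ (a + b) s t = gg γ a s t + gg γ b s t := by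
  simp [gg, gc, add_mul, Finset.sum_add_distrib]

theorem gg_smul (c : ℝ) (a : Fin m → ℝ) (s t : ℂ) :
    gg γ (c • a) s t = c * gg γ a s t := by
  have : gc γ (c • a) s t = (c : ℂ) * gc γ a s t := by
    simp [gc, Finset.mul_sum, mul_assoc]
  simp [gg, this]

theorem la_add (a b : Fin m → ℝ) (j : Fin n) (t : ℂ) :
    la e A γ y (a + b) j t = la e A γ y a j t + la e A γ y b j t := by
  unfold la
  rw [← Pi.add_apply, ← Matrix.mulVec_add]
  congr 2
  ext l
  simp [bb_add]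

theorem la_smul (c : ℝ) (a : Fin m → ℝ) (j : Fin n) (t : ℂ) :
    la e A γ y (c • a) j t = c * la e A γ y a j t := by
  unfold la
  rw [← smul_eq_mul, ← Pi.smul_apply, ← Matrix.mulVec_smul]
  congr 2
  ext l
  simp [bb_smul]

/-- The variations of the arguments vanish. -/
def E0 (Z₁ : Finset ℂ) (a : Fin m → ℝ) : Prop :=
  (∀ l : Fin n, ∑ k, a k * ww (uu A l (γ k)) = 0) ∧
    ∀ t ∈ Z₁, ∑ k, a k * ww (fun θ => (γ k).x θ - t) = 0

/-- The identity (C4). -/
def Eqn (P : Polynomial ℂ[X]) (R : ℝ) (a : Fin m → ℝ) (s : ℂ) (μ : ℂ → ℝ) : Prop :=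
  ∀ t, R < ‖t‖ → evalEval t s P ≠ 0 →
    - gg γ a s t + ∑ j, la e A γ y a j t * Real.log ‖y j t - s‖ =
      ∑ q ∈ rts P s, μ q * Real.log ‖q - t‖

/-- The identity (C4'). -/
def Eqn1 (P : Polynomial ℂ[X]) (Z₁ : Finset ℂ) (a : Fin m → ℝ) (s : ℂ) (μ : ℂ → ℝ) : Prop :=
  ∀ t ∈ Z₁, ∑ k, a k * rg (fun θ => (γ k).y θ - s) (fun θ => (γ k).x θ - t) =
      ∑ q ∈ rts P s, μ q * Real.log ‖q - t‖

/-- The subspace `I_s`. -/
def Is (P : Polynomial ℂ[X]) (R : ℝ) (Z₁ : Finset ℂ) (s : ℂ) : Submodule ℝ (Fin m → ℝ) where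
  carrier := {a | E0 A γ Z₁ a ∧ ∃ μ : ℂ → ℝ, Eqn e A γ y P R a s μ ∧ Eqn1 γ P Z₁ a s μ}
  zero_mem' := by
    refine ⟨⟨by simp, by simp⟩, 0, ?_, ?_⟩
    · intro t _ _
      have h1 : gg γ (0 : Fin m → ℝ) s t = 0 := by simp [gg, gc]
      have h2 : ∀ j, la e A γ y (0 : Fin m → ℝ) j t = 0 := by
        intro j
        have := la_smul e A γ y 0 (0 : Fin m → ℝ) j t
        simpa using this
      simp [h1, h2]
    · intro t _
      simp
  add_mem' := by
    rintro a b ⟨⟨ha1, ha2⟩, μ, ha3, ha4⟩ ⟨⟨hb1, hb2⟩, ν, hb3, hb4⟩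
    refine ⟨⟨?_, ?_⟩, μ + ν, ?_, ?_⟩
    · intro l
      simp only [Pi.add_apply, add_mul, Finset.sum_add_distrib, ha1 l, hb1 l, add_zero]
    · intro t ht
      simp only [Pi.add_apply, add_mul, Finset.sum_add_distrib, ha2 t ht, hb2 t ht, add_zero]
    · intro t h1 h2
      have e1 := ha3 t h1 h2
      have e2 := hb3 t h1 h2
      simp only [gg_add, la_add, Pi.add_apply, add_mul, Finset.sum_add_distrib]
      linarith
    · intro t ht
      have e1 := ha4 t ht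
      have e2 := hb4 t ht
      simp only [Pi.add_apply, add_mul, Finset.sum_add_distrib]
      linarith
  smul_mem' := by
    rintro c a ⟨⟨ha1, ha2⟩, μ, ha3, ha4⟩
    refine ⟨⟨?_, ?_⟩, c • μ, ?_, ?_⟩
    · intro l
      have := ha1 l
      simp only [Pi.smul_apply, smul_eq_mul, mul_assoc, ← Finset.mul_sum, this, mul_zero]
    · intro t ht
      have := ha2 t ht
      simp only [Pi.smul_apply, smul_eq_mul, mul_assoc, ← Finset.mul_sum, this, mul_zero]
    · intro t h1 h2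
      have e1 := ha3 t h1 h2
      simp only [gg_smul, la_smul, Pi.smul_apply, smul_eq_mul, mul_assoc, ← Finset.mul_sum]
      rw [← e1]
      ring
    · intro t ht
      have e1 := ha4 t ht
      simp only [Pi.smul_apply, smul_eq_mul, mul_assoc, ← Finset.mul_sum]
      rw [← e1]

end

end Pool.Agent.T9h40.GP
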