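import Pool.Agent.T9h40.GP.Asm2

/-!
# Assembly, part 3: sums over the removed points, the second finiteness argument
-/

open Polynomial Filter Topology Bornology

namespace Pool.Agent.T9h40.GP

section
variable {n m e : ℕ} {P : Polynomial ℂ[X]} {A : Fin n → ℂ[X]} {Z₁ : Finset ℂ}
  {γ : Fin m → Pth} {B R R' : ℝ} {y : Fin n → ℂ → ℂ}

theorem sumX (c : Ctx e P A Z₁ γ B R R' y) {Z S : Finset ℂ} {t : ℂ} (htZ : t ∈ Z) (ht : R < ‖t‖)
    (Nf : Finset (ℂ × ℂ)) (hNf : ∀ p, p ∈ Nf ↔ p ∈ NN P Z S) (H : ℂ × ℂ → ℝ) :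
    ∑ p ∈ Nf, (if p.1 = t then H p else 0) = ∑ j, H (t, y j t) := by
  classical
  rw [← Finset.sum_filter]
  symm
  apply Finset.sum_nbij (fun j => (t, y j t))
  · intro j _
    rw [Finset.mem_filter, hNf]
    refine ⟨⟨?_, Or.inl htZ⟩, rfl⟩
    rw [c.br.fac t ht]
    exact Finset.prod_eq_zero (Finset.mem_univ j) (sub_self _)
  · intro i _ j _ hij
    exact c.br.inj t ht (by simpa using congrArg Prod.snd hij)
  · intro p hp
    rw [Finset.mem_coe, Finset.mem_filter, hNf] at hp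
    obtain ⟨⟨h1, -⟩, h2⟩ := hp
    rw [h2, c.br.fac t ht] at h1
    obtain ⟨j, _, hj⟩ := Finset.prod_eq_zero_iff.1 h1
    refine ⟨j, by simp, ?_⟩
    ext
    · exact h2.symm
    · exact (sub_eq_zero.1 hj).symm
  · intro j _
    rfl

theorem sumY (c : Ctx e P A Z₁ γ B R R' y) {Z S : Finset ℂ} {s : ℂ} (hsS : s ∈ S) (hs : R' < ‖s‖)
    (Nf : Finset (ℂ × ℂ)) (hNf : ∀ p, p ∈ Nf ↔ p ∈ NN P Z S) (H : ℂ × ℂ → ℝ) :
    ∑ p ∈ Nf, (if p.2 = s then H p else 0) = ∑ q ∈ rts P s, H (q, s) := by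
  classical
  rw [← Finset.sum_filter]
  symm
  apply Finset.sum_nbij (fun q => (q, s))
  · intro q hq
    rw [Finset.mem_filter, hNf]
    exact ⟨⟨(mem_rts c hs q).1 hq, Or.inr hsS⟩, rfl⟩
  · intro i _ j _ hij
    simpa using congrArg Prod.fst hij
  · intro p hp
    rw [Finset.mem_coe, Finset.mem_filter, hNf] at hp
    obtain ⟨⟨h1, -⟩, h2⟩ := hp
    rw [h2] at h1
    refine ⟨p.1, Finset.mem_coe.2 ((mem_rts c hs p.1).2 h1), ?_⟩
    ext
    · rfl
    · exact h2.symm
  · intro j _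
    rfl

theorem NN_finite (c : Ctx e P A Z₁ γ B R R' y) {Z S : Finset ℂ} (hZ : ∀ t ∈ Z, R < ‖t‖)
    (hS : ∀ s ∈ S, R' < ‖s‖) : (NN P Z S).Finite := by
  classical
  have h1 : NN P Z S ⊆ ((Z.biUnion (fun t => Finset.univ.image (fun j => (t, y j t)))) ∪
      (S.biUnion (fun s => (rts P s).image (fun q => (q, s)))) : Finset (ℂ × ℂ)) := by
    intro p hp
    rw [Finset.mem_coe, Finset.mem_union]
    rcases hp.2 with h | h
    · left
      rw [Finset.mem_biUnion]
      refine ⟨p.1, h, ?_⟩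
      rw [Finset.mem_image]
      have h1 := hp.1
      rw [c.br.fac p.1 (hZ _ h)] at h1
      obtain ⟨j, _, hj⟩ := Finset.prod_eq_zero_iff.1 h1
      refine ⟨j, Finset.mem_univ _, ?_⟩
      ext
      · rfl
      · exact (sub_eq_zero.1 hj).symm
    · right
      rw [Finset.mem_biUnion]
      refine ⟨p.2, h, ?_⟩
      rw [Finset.mem_image]
      exact ⟨p.1, (mem_rts c (hS _ h) _).2 hp.1, rfl⟩
  exact (Finset.finite_toSet _).subset h1

theorem NN_branch (c : Ctx e P A Z₁ γ B R R' y) {Z S : Finset ℂ} (hZ : ∀ t ∈ Z, R < ‖t‖)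
    (hS : ∀ s ∈ S, R' < ‖s‖) {p : ℂ × ℂ} (hp : p ∈ NN P Z S) :
    R < ‖p.1‖ ∧ ∃ j, p.2 = y j p.1 := by
  have h0 : R < ‖p.1‖ := by
    rcases hp.2 with h | h
    · exact hZ _ h
    · exact (branch_of_mem c (hS _ h) hp.1).1
  refine ⟨h0, ?_⟩
  have h1 := hp.1
  rw [c.br.fac p.1 h0] at h1
  obtain ⟨j, _, hj⟩ := Finset.prod_eq_zero_iff.1 h1
  exact ⟨j, sub_eq_zero.1 hj⟩

/-- simple roots in `y`. -/
theorem der_y (c : Ctx e P A Z₁ γ B R R' y) {t : ℂ} (ht : R < ‖t‖) (j : Fin n) :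
    evalEval t (y j t) (derivative P) ≠ 0 := by
  classical
  have h1 : P.map (evalRingHom t) = ∏ i, (X - C (y i t)) := by
    apply Polynomial.funext
    intro s
    have h2 := c.br.fac t ht s
    rw [eval_prod]
    simp only [eval_sub, eval_X, eval_C]
    rw [← h2, ← map_evalRingHom_eval]
  have h2 : evalEval t (y j t) (derivative P) =
      (derivative (∏ i, (X - C (y i t)))).eval (y j t) := by
    rw [← h1, ← map_evalRingHom_eval, derivative_map]
  rw [h2]
  have h3 : (∏ i, (X - C (y i t))).Separable :=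
    separable_prod_X_sub_C_iff.2 (c.br.inj t ht)
  intro h4
  have h5 : (∏ i, (X - C (y i t))).eval (y j t) = 0 := by
    rw [eval_prod]
    exact Finset.prod_eq_zero (Finset.mem_univ j) (by simp)
  obtain ⟨u, v, huv⟩ := h3
  have h6 := congrArg (eval (y j t)) huv
  simp only [eval_add, eval_mul, h5, h4, mul_zero, add_zero, eval_one] at h6
  exact zero_ne_one h6

/-- simple roots in `x`. -/
theorem der_x (c : Ctx e P A Z₁ γ B R R' y) {s x : ℂ} (hs : R' < ‖s‖) (hx : evalEval x s P = 0) :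
    (derivative (P.eval (C s))).eval x ≠ 0 := by
  classical
  obtain ⟨hR, j, hj⟩ := branch_of_mem c hs hx
  have h1 : HasDerivAt (fun t => (P.eval (C s)).eval t) ((derivative (P.eval (C s))).eval x) x :=
    (P.eval (C s)).hasDerivAt x
  have h2 : (fun t => (P.eval (C s)).eval t) =ᶠ[𝓝 x] fun t => ∏ i, (s - y i t) := by
    filter_upwards [(isOpen_ext R).mem_nhds hR] with t ht
    exact c.br.fac t ht s
  have h3 : ∀ i, HasDerivAt (fun t => s - y i t) (- deriv (y i) x) x := by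
    intro i
    have : DifferentiableAt ℂ (y i) x :=
      (c.br.diff i).differentiableAt ((isOpen_ext R).mem_nhds hR)
    simpa using this.hasDerivAt.const_sub s
  have h4 : HasDerivAt (fun t => ∏ i, (s - y i t))
      (∑ i, (∏ k ∈ Finset.univ.erase i, (s - y k x)) • (- deriv (y i) x)) x :=
    HasDerivAt.fun_finsetProd (fun i _ => h3 i)
  have h5 := (h1.congr_of_eventuallyEq h2.symm).unique h4
  rw [h5]
  rw [Finset.sum_eq_single j]
  · rw [smul_eq_mul]
    apply mul_ne_zero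
    · rw [Finset.prod_ne_zero_iff]
      intro i hi h6
      have h7 : y i x = y j x := by rw [hj]; exact (sub_eq_zero.1 h6).symm
      exact (Finset.ne_of_mem_erase hi) (c.br.inj x hR h7)
    · exact neg_ne_zero.2 (c.br.der j x hR)
  · intro i _ hij
    rw [Finset.prod_eq_zero (Finset.mem_erase.2 ⟨hij.symm, Finset.mem_univ j⟩)
      (by rw [hj]; ring), zero_smul]
  · intro h
    exact absurd (Finset.mem_univ j) h

end

end Pool.Agent.T9h40.GP
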