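import Pool.Agent.T9h40.GP.Asm3

/-!
# Assembly, part 4: the linear functionals
-/

open Polynomial Filter Topology Bornology

namespace Pool.Agent.T9h40.GP

section
variable {n m e : ℕ} {P : Polynomial ℂ[X]} {A : Fin n → ℂ[X]} {Z₁ : Finset ℂ}
  {γ : Fin m → Pth} {B R R' : ℝ} {y : Fin n → ℂ → ℂ}

/-- the points with `y ∈ S` -/
noncomputable def QF (P : Polynomial ℂ[X]) (S : Finset ℂ) : Finset (ℂ × ℂ) :=
  S.biUnion (fun s => (rts P s).image (fun q => (q, s)))

open Classical in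
/-- extension by zero -/
noncomputable def mext {P : Polynomial ℂ[X]} {S : Finset ℂ} (μ : {p // p ∈ QF P S} → ℝ) (s q : ℂ) :
    ℝ := if h : (q, s) ∈ QF P S then μ ⟨(q, s), h⟩ else 0

theorem mext_add {S : Finset ℂ} (μ ν : {p // p ∈ QF P S} → ℝ) (s q : ℂ) :
    mext (μ + ν) s q = mext μ s q + mext ν s q := by
  unfold mext
  split_ifs <;> simp

theorem mext_smul {S : Finset ℂ} (r : ℝ) (μ : {p // p ∈ QF P S} → ℝ) (s q : ℂ) :
    mext (r • μ) s q = r * mext μ s q := by
  unfold mext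
  split_ifs <;> simp

theorem mext_zero {S : Finset ℂ} (s q : ℂ) : mext (0 : {p // p ∈ QF P S} → ℝ) s q = 0 := by
  unfold mext
  split_ifs <;> simp

/-- The conditions not involving large `t`. -/
def W0 (A : Fin n → ℂ[X]) (γ : Fin m → Pth) (P : Polynomial ℂ[X]) (Z₁ S : Finset ℂ) :
    Submodule ℝ ((Fin m → ℝ) × ({p // p ∈ QF P S} → ℝ)) where
  carrier := {v | E0 A γ Z₁ v.1 ∧ ∀ s ∈ S, Eqn1 γ P Z₁ v.1 s (mext v.2 s)}
  zero_mem' := by
    refine ⟨⟨by simp, by simp⟩, ?_⟩
    intro s _ t _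
    simp [mext_zero]
  add_mem' := by
    rintro a b ⟨⟨ha1, ha2⟩, ha4⟩ ⟨⟨hb1, hb2⟩, hb4⟩
    refine ⟨⟨?_, ?_⟩, ?_⟩
    · intro l
      simp only [Prod.fst_add, Pi.add_apply, add_mul, Finset.sum_add_distrib, ha1 l, hb1 l,
        add_zero]
    · intro t ht
      simp only [Prod.fst_add, Pi.add_apply, add_mul, Finset.sum_add_distrib, ha2 t ht, hb2 t ht,
        add_zero]
    · intro s hs t ht
      have e1 := ha4 s hs t ht
      have e2 := hb4 s hs t ht
      simp only [Prod.fst_add, Prod.snd_add, Pi.add_apply, mext_add, add_mul,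
        Finset.sum_add_distrib]
      linarith
  smul_mem' := by
    rintro r a ⟨⟨ha1, ha2⟩, ha4⟩
    refine ⟨⟨?_, ?_⟩, ?_⟩
    · intro l
      have := ha1 l
      simp only [Prod.smul_fst, Pi.smul_apply, smul_eq_mul, mul_assoc, ← Finset.mul_sum, this,
        mul_zero]
    · intro t ht
      have := ha2 t ht
      simp only [Prod.smul_fst, Pi.smul_apply, smul_eq_mul, mul_assoc, ← Finset.mul_sum, this,
        mul_zero]
    · intro s hs t ht
      have e1 := ha4 s hs t ht
      simp only [Prod.smul_fst, Prod.smul_snd, Pi.smul_apply, smul_eq_mul, mext_smul, mul_assoc,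
        ← Finset.mul_sum]
      rw [← e1]

/-- The condition at `t`. -/
def Wt (e : ℕ) (A : Fin n → ℂ[X]) (γ : Fin m → Pth) (y : Fin n → ℂ → ℂ) (P : Polynomial ℂ[X])
    (S : Finset ℂ) (t : ℂ) :
    Submodule ℝ ((Fin m → ℝ) × ({p // p ∈ QF P S} → ℝ)) where
  carrier := {v | ∀ s ∈ S, - gg γ v.1 s t + ∑ j, la e A γ y v.1 j t * Real.log ‖y j t - s‖ =
      ∑ q ∈ rts P s, mext v.2 s q * Real.log ‖q - t‖}
  zero_mem' := by
    intro s _
    have h1 : gg γ (0 : Fin m → ℝ) s t = 0 := by simp [gg, gc]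
    have h2 : ∀ j, la e A γ y (0 : Fin m → ℝ) j t = 0 := by
      intro j
      have := la_smul e A γ y 0 (0 : Fin m → ℝ) j t
      simpa using this
    simp [h1, h2, mext_zero]
  add_mem' := by
    intro a b ha hb s hs
    have e1 := ha s hs
    have e2 := hb s hs
    simp only [Prod.fst_add, Prod.snd_add, gg_add, la_add, mext_add, add_mul,
      Finset.sum_add_distrib]
    linarith
  smul_mem' := by
    intro r a ha s hs
    have e1 := ha s hs
    simp only [Prod.smul_fst, Prod.smul_snd, gg_smul, la_smul, mext_smul, mul_assoc,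
      ← Finset.mul_sum]
    rw [← e1]
    ring

/-- The choice of `S` and `Z`. -/
theorem choose_ZS (hRg : RgSub) (hLI : LogInt) (hWw : WwSub) (hQ : QqDiff) (hMo : Moment)
    (hMS : MomS) (hPa : Parts) (hKL : KeyLoc) (hKG : KeyGlob) (hB5 : B5) (hF : FinKer)
    (hExt : Ext)
    (c : Ctx e P A Z₁ γ B R R' y) (hind : Indep A Z₁ γ) {K : Set ℂ} (hK : Dense K) :
    ∃ Z S : Finset ℂ, (∀ t ∈ Z, t ∈ K ∧ R < ‖t‖) ∧ (∀ s ∈ S, s ∈ K ∧ R' < ‖s‖) ∧
      (∀ t ∈ Z, ∀ s ∈ S, evalEval t s P ≠ 0) ∧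
      ∀ v : (Fin m → ℝ) × ({p // p ∈ QF P S} → ℝ), v ∈ W0 A γ P Z₁ S →
        (∀ t ∈ Z, v ∈ Wt e A γ y P S t) → v = 0 := by
  classical
  obtain ⟨S₀, hS₀⟩ := hF (Fin m → ℝ) {s : ℂ // s ∈ K ∧ R' < ‖s‖}
    (fun s => Is e A γ y P R Z₁ s.1) (by
      intro a ha
      exact claimA hRg hLI hWw hQ hMo hMS hPa hKL hKG hB5 c hind hK
        (fun s h1 h2 => ha ⟨s, h1, h2⟩))
  set S : Finset ℂ := S₀.image Subtype.val with hSdef
  have hS : ∀ s ∈ S, s ∈ K ∧ R' < ‖s‖ := by
    intro s hs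
    rw [hSdef, Finset.mem_image] at hs
    obtain ⟨s', -, rfl⟩ := hs
    exact s'.2
  let ι := Option {t : ℂ // t ∈ K ∧ R < ‖t‖ ∧ ∀ s ∈ S, evalEval t s P ≠ 0}
  let W : ι → Submodule ℝ ((Fin m → ℝ) × ({p // p ∈ QF P S} → ℝ)) := fun i =>
    match i with
    | none => W0 A γ P Z₁ S
    | some t => Wt e A γ y P S t.1
  have hcommon : ∀ v, (∀ i, v ∈ W i) → v = 0 := by
    rintro ⟨a, μ⟩ hv
    have h0 : (a, μ) ∈ W0 A γ P Z₁ S := hv none
    have hEqn : ∀ s ∈ S, Eqn e A γ y P R a s (mext μ s) := by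
      intro s hs
      have hs' := (hS s hs).2
      have hfin : {t : ℂ | ∃ s ∈ S, evalEval t s P = 0}.Finite := by
        have h1 : {t : ℂ | ∃ s ∈ S, evalEval t s P = 0} =
            ⋃ s ∈ S, {t : ℂ | evalEval t s P = 0} := by
          ext t
          simp
        rw [h1]
        apply Set.Finite.biUnion (Finset.finite_toSet S)
        intro s hs
        have h2 : {t : ℂ | evalEval t s P = 0} = ((rts P s : Finset ℂ) : Set ℂ) := by
          ext t
          rw [Finset.mem_coe, mem_rts c (hS s hs).2]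
          rfl
        rw [h2]
        exact Finset.finite_toSet _
      exact hExt n P R R' y c.br K _ hK hfin (la e A γ y a) (gg γ a s) s (mext μ s) hs'
        (fun j => la_diffAt hQ c a j) (gg_diff hQ c a (lt_of_le_of_lt c.BR' hs'))
        (by
          intro t htK ht htE _
          have hts : ∀ s ∈ S, evalEval t s P ≠ 0 := by
            intro s hs h
            exact htE ⟨s, hs, h⟩
          exact hv (some ⟨t, htK, ht, hts⟩) s hs)
    have ha : a = 0 := by
      apply hS₀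
      intro s hs
      have hsS : s.1 ∈ S := Finset.mem_image_of_mem _ hs
      exact ⟨h0.1, mext μ s.1, hEqn s.1 hsS, h0.2 s.1 hsS⟩
    have hμ : μ = 0 := by
      ext ⟨⟨q, s⟩, hp⟩
      have hp' := hp
      unfold QF at hp'
      rw [Finset.mem_biUnion] at hp'
      obtain ⟨s', hs', h1⟩ := hp'
      rw [Finset.mem_image] at h1
      obtain ⟨q', hq', h2⟩ := h1
      have h3 : s' = s := congrArg Prod.snd h2
      have h4 : q' = q := congrArg Prod.fst h2
      subst h3 h4
      have hsR := (hS s' hs').2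
      obtain ⟨hqR, j, hj⟩ := branch_of_mem c hsR ((mem_rts c hsR q').1 hq')
      have h5 := (hKL n P R R' y c.br (la e A γ y a) (gg γ a s') s' (mext μ s') hsR
        (fun j => la_diffAt hQ c a j) (gg_diff hQ c a (lt_of_le_of_lt c.BR' hsR))
        (hEqn s' hs') q' hq' j hj).1
      have h6 : la e A γ y a j q' = 0 := by
        rw [ha]
        have := la_smul e A γ y 0 (0 : Fin m → ℝ) j q'
        simpa using this
      rw [h6] at h5
      unfold mext at h5
      rw [dif_pos hp] at h5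
      exact h5
    rw [ha, hμ]
    rfl
  obtain ⟨T, hT⟩ := hF _ ι W hcommon
  refine ⟨(T.biUnion (fun i => match i with
    | none => ∅
    | some t => {t.1})), S, ?_, hS, ?_, ?_⟩
  · intro t ht
    rw [Finset.mem_biUnion] at ht
    obtain ⟨i, -, hi⟩ := ht
    rcases i with _ | t'
    · simp at hi
    · simp only [Finset.mem_singleton] at hi
      subst hi
      exact ⟨t'.2.1, t'.2.2.1⟩
  · intro t ht
    rw [Finset.mem_biUnion] at ht
    obtain ⟨i, -, hi⟩ := ht
    rcases i with _ | t'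
    · simp at hi
    · simp only [Finset.mem_singleton] at hi
      subst hi
      exact t'.2.2.2
  · intro v h0 ht
    apply hT
    intro i hi
    rcases i with _ | t'
    · exact h0
    · apply ht
      rw [Finset.mem_biUnion]
      exact ⟨some t', hi, by simp⟩

end

end Pool.Agent.T9h40.GP
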