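import Pool.Agent.T9h40.GP.Asm4

/-!
# Assembly, part 5: the final duality
-/

open Polynomial Filter Topology Bornology

namespace Pool.Agent.T9h40.GP

section
variable {n m e : ℕ} {P : Polynomial ℂ[X]} {A : Fin n → ℂ[X]} {Z₁ : Finset ℂ}
  {γ : Fin m → Pth} {B R R' : ℝ} {y : Fin n → ℂ → ℂ}

theorem U_ne (c : Ctx e P A Z₁ γ B R R' y) {Z S : Finset ℂ} (hZ : ∀ t ∈ Z, R < ‖t‖)
    (hS : ∀ s ∈ S, R' < ‖s‖) {p : ℂ × ℂ} (hp : p ∈ NN P Z S) (l : Fin n) :
    p.2 - (A l).eval p.1 ≠ 0 := by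
  obtain ⟨h1, j, hj⟩ := NN_branch c hZ hS hp
  rw [hj]
  exact sub_ne_zero.2 (c.asy.ne l j p.1 h1)

theorem tm_U_two (c : Ctx e P A Z₁ γ B R R' y) {Z S : Finset ℂ} (hZ : ∀ t ∈ Z, R < ‖t‖)
    (hS : ∀ s ∈ S, R' < ‖s‖) {p : ℂ × ℂ} (hp : p ∈ NN P Z S) (l : Fin n) :
    tm A (.U l) .two p = 0 := by
  have h1 := U_ne c hZ hS hp l
  simp [tm, Fn.val, h1]

theorem tm_X_two (t : ℂ) (p : ℂ × ℂ) :
    tm A (.X t) (.two : Fn n) p = - (if p.1 = t then Real.log 2 else 0) := by
  simp [tm, Fn.val, sub_eq_zero]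

theorem tm_U_X (c : Ctx e P A Z₁ γ B R R' y) {Z S : Finset ℂ} (hZ : ∀ t ∈ Z, R < ‖t‖)
    (hS : ∀ s ∈ S, R' < ‖s‖) {p : ℂ × ℂ} (hp : p ∈ NN P Z S) (l : Fin n) (t : ℂ) :
    tm A (.U l) (.X t) p = if p.1 = t then Real.log ‖p.2 - (A l).eval p.1‖ else 0 := by
  have h1 := U_ne c hZ hS hp l
  simp [tm, Fn.val, h1, sub_eq_zero]

theorem tm_Y_X (s t : ℂ) (p : ℂ × ℂ) :
    tm A (.Y s) (.X t : Fn n) p = (if p.1 = t then Real.log ‖p.2 - s‖ else 0) -
      (if p.2 = s then Real.log ‖p.1 - t‖ else 0) := by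
  simp [tm, Fn.val, sub_eq_zero]

theorem final_dual (hRg : RgSub) (hWw : WwSub)
    (c : Ctx e P A Z₁ γ B R R' y) {Z S : Finset ℂ} (hZ : ∀ t ∈ Z, R < ‖t‖)
    (hS : ∀ s ∈ S, R' < ‖s‖) (hZ₁ : ∀ t ∈ Z₁, ‖t‖ ≤ R)
    (hker : ∀ v : (Fin m → ℝ) × ({p // p ∈ QF P S} → ℝ), v ∈ W0 A γ P Z₁ S →
        (∀ t ∈ Z, v ∈ Wt e A γ y P S t) → v = 0) :
    Submodule.span ℝ {v : (Fin m → ℝ) × (NN P Z S → ℝ) | ∃ f g : Fn n,
        f.Adm (Z ∪ Z₁) S ∧ g.Adm (Z ∪ Z₁) S ∧
        v = (fun k => rgv A f g (γ k), fun p => tm A f g p.1)} = ⊤ := by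
  classical
  by_contra hcon
  obtain ⟨φ, hφ0, hφ⟩ := Submodule.exists_le_ker_of_lt_top _ (lt_top_iff_ne_top.2 hcon)
  apply hφ0
  have hNf := NN_finite c hZ hS
  have : Finite (NN P Z S) := hNf
  have : Fintype (NN P Z S) := Fintype.ofFinite _
  set Nf : Finset (ℂ × ℂ) := hNf.toFinset with hNfd
  have hmem : ∀ p, p ∈ Nf ↔ p ∈ NN P Z S := fun p => hNf.mem_toFinset
  set a : Fin m → ℝ := fun k => φ (Pi.single k 1, 0) with had
  set Λ : NN P Z S → ℝ := fun p => φ (0, Pi.single p 1) with hΛd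
  set Λ' : ℂ × ℂ → ℝ := fun p => if h : p ∈ NN P Z S then Λ ⟨p, h⟩ else 0 with hΛ'
  have hφeq : ∀ v w, φ (v, w) = ∑ k, a k * v k + ∑ p, Λ p * w p := by
    intro v w
    have h1 : (v, w) = ∑ k, v k • ((Pi.single k 1 : Fin m → ℝ), (0 : NN P Z S → ℝ)) +
        ∑ p, w p • ((0 : Fin m → ℝ), (Pi.single p 1 : NN P Z S → ℝ)) := by
      ext i
      · simp [Prod.fst_sum, Finset.sum_apply, Pi.single_apply]
      · simp [Prod.snd_sum, Finset.sum_apply, Pi.single_apply]
    rw [h1, map_add, map_sum, map_sum]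
    congr 1
    · apply Finset.sum_congr rfl
      intro k _
      rw [map_smul, smul_eq_mul, mul_comm]
    · apply Finset.sum_congr rfl
      intro k _
      rw [map_smul, smul_eq_mul, mul_comm]
  have hsum : ∀ G : ℂ × ℂ → ℝ, ∑ p : NN P Z S, Λ p * G p.1 = ∑ p ∈ Nf, Λ' p * G p := by
    intro G
    rw [Finset.sum_subtype Nf (p := fun p => p ∈ NN P Z S) hmem]
    apply Finset.sum_congr rfl
    intro p _
    rw [hΛ']
    simp only [dif_pos p.2]
  have hstar : ∀ f g : Fn n, f.Adm (Z ∪ Z₁) S → g.Adm (Z ∪ Z₁) S →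
      ∑ k, a k * rgv A f g (γ k) + ∑ p ∈ Nf, Λ' p * tm A f g p = 0 := by
    intro f g hf hg
    have h1 : ((fun k => rgv A f g (γ k), fun p => tm A f g p.1) :
        (Fin m → ℝ) × (NN P Z S → ℝ)) ∈ LinearMap.ker φ := by
      apply hφ
      apply Submodule.subset_span
      exact ⟨f, g, hf, hg, rfl⟩
    rw [LinearMap.mem_ker, hφeq] at h1
    rw [← hsum (tm A f g)]
    exact h1
  have hlog2 : Real.log 2 ≠ 0 := by
    have := Real.log_pos (by norm_num : (1:ℝ) < 2)
    linarith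
  have hnotZ₁ : ∀ t ∈ Z₁, ∀ p ∈ Nf, p.1 ≠ t := by
    intro t ht p hp h
    have h1 := (NN_branch c hZ hS ((hmem p).1 hp)).1
    rw [h] at h1
    exact absurd (hZ₁ t ht) (not_le.2 h1)
  -- E0
  have hE0 : E0 A γ Z₁ a := by
    constructor
    · intro l
      have h1 := hstar (.U l) .two trivial trivial
      have h2 : ∑ p ∈ Nf, Λ' p * tm A (.U l) .two p = 0 := by
        apply Finset.sum_eq_zero
        intro p hp
        rw [tm_U_two c hZ hS ((hmem p).1 hp), mul_zero]
      have h3 : ∀ k, rgv A (.U l) .two (γ k) = - Real.log 2 * ww (uu A l (γ k)) := by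
        intro k
        exact (rg_const_right (uu A l (γ k)) 2).trans (by simp)
      rw [h2, add_zero] at h1
      simp only [h3] at h1
      have h4 : - Real.log 2 * ∑ k, a k * ww (uu A l (γ k)) = 0 := by
        rw [Finset.mul_sum, ← h1]
        apply Finset.sum_congr rfl
        intro k _
        ring
      rcases mul_eq_zero.1 h4 with h5 | h5
      · exact absurd (neg_eq_zero.1 h5) hlog2
      · exact h5
    · intro t ht
      have h1 := hstar (.X t) .two (Finset.mem_union_right _ ht) trivial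
      have h2 : ∑ p ∈ Nf, Λ' p * tm A (.X t) (.two : Fn n) p = 0 := by
        apply Finset.sum_eq_zero
        intro p hp
        rw [tm_X_two, if_neg (hnotZ₁ t ht p hp)]
        simp
      have h3 : ∀ k, rgv A (.X t) (.two : Fn n) (γ k) =
          - Real.log 2 * ww (fun θ => (γ k).x θ - t) := by
        intro k
        have := rg_const_right (fun θ => (γ k).x θ - t) 2
        simpa [rgv, Fn.val] using this
      rw [h2, add_zero] at h1
      simp only [h3] at h1
      have h4 : - Real.log 2 * ∑ k, a k * ww (fun θ => (γ k).x θ - t) = 0 := by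
        rw [Finset.mul_sum, ← h1]
        apply Finset.sum_congr rfl
        intro k _
        ring
      rcases mul_eq_zero.1 h4 with h5 | h5
      · exact absurd (neg_eq_zero.1 h5) hlog2
      · exact h5
  -- the coefficients over `t ∈ Z`
  have hxlt : ∀ t ∈ Z, ∀ k, ∀ θ ∈ Set.Icc (0:ℝ) 1, ‖(γ k).x θ‖ < ‖t‖ := by
    intro t ht k θ hθ
    exact lt_of_le_of_lt ((c.bx k θ hθ).trans c.BR) (hZ t ht)
  have hla : ∀ t ∈ Z, ∀ j, Λ' (t, y j t) = la e A γ y a j t := by
    intro t ht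
    have hsum0 : ∑ j, Λ' (t, y j t) = 0 := by
      have h1 := hstar (.X t) .two (Finset.mem_union_left _ ht) trivial
      have h3 : ∀ k, rgv A (.X t) (.two : Fn n) (γ k) = 0 := by
        intro k
        have h4 := rg_const_right (fun θ => (γ k).x θ - t) 2
        rw [(hWw (γ k).x t (γ k).hx (γ k).cx (hxlt t ht k)).1, mul_zero] at h4
        simpa [rgv, Fn.val] using h4
      simp only [h3, mul_zero, Finset.sum_const_zero, zero_add, tm_X_two] at h1
      have h5 : ∑ p ∈ Nf, (if p.1 = t then Λ' p * Real.log 2 else 0) = 0 := by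
        have h6 : ∑ p ∈ Nf, (if p.1 = t then Λ' p * Real.log 2 else 0) =
            - ∑ p ∈ Nf, Λ' p * -(if p.1 = t then Real.log 2 else 0) := by
          rw [← Finset.sum_neg_distrib]
          apply Finset.sum_congr rfl
          intro p _
          split_ifs <;> simp
        rw [h6, h1, neg_zero]
      rw [sumX c ht (hZ t ht) Nf hmem (fun p => Λ' p * Real.log 2), ← Finset.sum_mul] at h5
      rcases mul_eq_zero.1 h5 with h6 | h6
      · exact h6
      · exact absurd h6 hlog2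
    have hM : (MM e A y t).mulVec (fun j => Λ' (t, y j t)) = fun l => bb A γ a l t := by
      ext l
      have h1 := hstar (.U l) (.X t) trivial (Finset.mem_union_left _ ht)
      have h2 : ∑ p ∈ Nf, Λ' p * tm A (.U l) (.X t) p =
          ∑ j, Λ' (t, y j t) * Real.log ‖y j t - (A l).eval t‖ := by
        rw [← sumX c ht (hZ t ht) Nf hmem
          (fun p => Λ' p * Real.log ‖p.2 - (A l).eval p.1‖)]
        apply Finset.sum_congr rfl
        intro p hp
        rw [tm_U_X c hZ hS ((hmem p).1 hp)]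
        split_ifs <;> simp
      have h3 : ∑ k, a k * rgv A (.U l) (.X t) (γ k) = - bb A γ a l t := by
        have h4 : ∀ k, rgv A (.U l) (.X t) (γ k) = - Real.log ‖t‖ * ww (uu A l (γ k)) -
            (qq (fun θ => deriv (uu A l (γ k)) θ / uu A l (γ k) θ) (γ k).x t⁻¹).im := by
          intro k
          exact hRg (uu A l (γ k)) (γ k).x t (contDiff_uu A l (γ k))
            (fun θ _ => uu_ne c l k θ) (uu_closed A l (γ k)) (γ k).hx (γ k).cx (hxlt t ht k)
        have h5 : ∑ k, a k * (Real.log ‖t‖ * ww (uu A l (γ k))) = 0 := by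
          have : ∑ k, a k * (Real.log ‖t‖ * ww (uu A l (γ k))) =
              Real.log ‖t‖ * ∑ k, a k * ww (uu A l (γ k)) := by
            rw [Finset.mul_sum]
            apply Finset.sum_congr rfl
            intro k _
            ring
          rw [this, hE0.1 l, mul_zero]
        have h6 : bb A γ a l t = ∑ k, a k *
            (qq (fun θ => deriv (uu A l (γ k)) θ / uu A l (γ k) θ) (γ k).x t⁻¹).im := by
          unfold bb bc
          rw [Complex.im_sum]
          apply Finset.sum_congr rfl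
          intro k _
          simp
        rw [h6]
        simp only [h4, mul_sub, Finset.sum_sub_distrib]
        have h7 : ∑ k, a k * (- Real.log ‖t‖ * ww (uu A l (γ k))) = 0 := by
          rw [← neg_eq_zero, ← Finset.sum_neg_distrib, ← h5]
          apply Finset.sum_congr rfl
          intro k _
          ring
        rw [h7, zero_sub]
      rw [h2, h3] at h1
      simp only [Matrix.mulVec, dotProduct, MM]
      have h8 : ∑ j, (Real.log ‖y j t - (A l).eval t‖ - e * Real.log ‖t‖) * Λ' (t, y j t) =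
          ∑ j, Λ' (t, y j t) * Real.log ‖y j t - (A l).eval t‖ -
            e * Real.log ‖t‖ * ∑ j, Λ' (t, y j t) := by
        rw [Finset.mul_sum, ← Finset.sum_sub_distrib]
        apply Finset.sum_congr rfl
        intro j _
        ring
      rw [h8, hsum0]
      linarith
    have h9 : (fun j => Λ' (t, y j t)) = (MM e A y t)⁻¹.mulVec (fun l => bb A γ a l t) := by
      rw [← hM, Matrix.mulVec_mulVec, Matrix.nonsing_inv_mul _ (c.det t (hZ t ht)),
        Matrix.one_mulVec]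
    intro j
    exact congrFun h9 j
  -- the vector (a, μ)
  set μ : {p // p ∈ QF P S} → ℝ := fun p => Λ' p.1 with hμd
  have hmext : ∀ s ∈ S, ∀ q ∈ rts P s, mext μ s q = Λ' (q, s) := by
    intro s hs q hq
    unfold mext
    have : (q, s) ∈ QF P S := by
      unfold QF
      rw [Finset.mem_biUnion]
      exact ⟨s, hs, Finset.mem_image_of_mem _ hq⟩
    rw [dif_pos this]
  have hYX : ∀ s ∈ S, ∀ t, ∑ p ∈ Nf, Λ' p * tm A (.Y s) (.X t : Fn n) p =
      ∑ p ∈ Nf, (if p.1 = t then Λ' p * Real.log ‖p.2 - s‖ else 0) -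
        ∑ q ∈ rts P s, mext μ s q * Real.log ‖q - t‖ := by
    intro s hs t
    have h1 : ∑ q ∈ rts P s, mext μ s q * Real.log ‖q - t‖ =
        ∑ p ∈ Nf, (if p.2 = s then Λ' p * Real.log ‖p.1 - t‖ else 0) := by
      rw [sumY c hs (hS s hs) Nf hmem (fun p => Λ' p * Real.log ‖p.1 - t‖)]
      apply Finset.sum_congr rfl
      intro q hq
      rw [hmext s hs q hq]
    rw [h1, ← Finset.sum_sub_distrib]
    apply Finset.sum_congr rfl
    intro p _
    rw [tm_Y_X]
    split_ifs <;> ring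
  have hv : ((a, μ) : (Fin m → ℝ) × ({p // p ∈ QF P S} → ℝ)) = 0 := by
    apply hker
    · refine ⟨hE0, ?_⟩
      intro s hs t ht
      have h1 := hstar (.Y s) (.X t) hs (Finset.mem_union_right _ ht)
      rw [hYX s hs t] at h1
      have h2 : ∑ p ∈ Nf, (if p.1 = t then Λ' p * Real.log ‖p.2 - s‖ else 0) = 0 := by
        apply Finset.sum_eq_zero
        intro p hp
        rw [if_neg (hnotZ₁ t ht p hp)]
      rw [h2] at h1
      have h3 : ∀ k, rgv A (.Y s) (.X t : Fn n) (γ k) =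
          rg (fun θ => (γ k).y θ - s) (fun θ => (γ k).x θ - t) := fun k => rfl
      simp only [h3] at h1
      linarith
    · intro t ht s hs
      have h1 := hstar (.Y s) (.X t) hs (Finset.mem_union_left _ ht)
      rw [hYX s hs t, sumX c ht (hZ t ht) Nf hmem (fun p => Λ' p * Real.log ‖p.2 - s‖)] at h1
      have hsB : B < ‖s‖ := lt_of_le_of_lt c.BR' (hS s hs)
      have h3 : ∑ k, a k * rgv A (.Y s) (.X t : Fn n) (γ k) = - gg γ a s t := by
        have h4 : ∀ k, a k * rgv A (.Y s) (.X t : Fn n) (γ k) =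
            - (a k * (qq (fun θ => deriv (γ k).y θ / ((γ k).y θ - s)) (γ k).x t⁻¹).im) := by
          intro k
          have h5 := hRg (fun θ => (γ k).y θ - s) (γ k).x t ((γ k).hy.sub contDiff_const)
            (sub_ne_of_lt (c.by' k) hsB) (by rw [(γ k).cy]) (γ k).hx (γ k).cx (hxlt t ht k)
          have h6 := (hWw (γ k).y s (γ k).hy (γ k).cy
            (fun θ hθ => lt_of_le_of_lt (c.by' k θ hθ) hsB)).1
          rw [h6, mul_zero, zero_sub] at h5
          have h7 : rgv A (.Y s) (.X t : Fn n) (γ k) =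
            rg (fun θ => (γ k).y θ - s) (fun θ => (γ k).x θ - t) := rfl
          rw [h7, h5]
          simp
        simp only [h4, Finset.sum_neg_distrib]
        unfold gg gc
        rw [Complex.im_sum]
        congr 1
        apply Finset.sum_congr rfl
        intro k _
        simp
      rw [h3] at h1
      have h8 : ∑ j, la e A γ y a j t * Real.log ‖y j t - s‖ =
          ∑ j, Λ' (t, y j t) * Real.log ‖y j t - s‖ := by
        apply Finset.sum_congr rfl
        intro j _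
        rw [hla t ht j]
      change - gg γ a s t + ∑ j, la e A γ y a j t * Real.log ‖y j t - s‖ =
        ∑ q ∈ rts P s, mext μ s q * Real.log ‖q - t‖
      rw [h8]
      linarith
  have ha0 : a = 0 := congrArg Prod.fst hv
  have hμ0 : μ = 0 := congrArg Prod.snd hv
  have hΛ0 : ∀ p : NN P Z S, Λ p = 0 := by
    intro p
    have h1 : Λ p = Λ' p.1 := by
      rw [hΛ']
      simp only [dif_pos p.2]
    rw [h1]
    rcases p.2.2 with h | h
    · obtain ⟨h2, j, hj⟩ := NN_branch c hZ hS p.2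
      have h3 : p.1 = (p.1.1, y j p.1.1) := by
        ext
        · rfl
        · exact hj
      rw [h3, hla _ h j, ha0]
      have := la_smul e A γ y 0 (0 : Fin m → ℝ) j p.1.1
      simpa using this
    · have h2 : p.1 ∈ QF P S := by
        unfold QF
        rw [Finset.mem_biUnion]
        refine ⟨p.1.2, h, ?_⟩
        rw [Finset.mem_image]
        exact ⟨p.1.1, (mem_rts c (hS _ h) _).2 p.2.1, rfl⟩
      exact congrFun hμ0 ⟨p.1, h2⟩
  apply LinearMap.ext
  rintro ⟨v, w⟩
  rw [hφeq, ha0]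
  simp [hΛ0]

end

/-- Existence of the context. -/
theorem ctx_ex (hQ' : BrEx) (hM : MatInv) (hB5 : B5) {n m e : ℕ} {P : Polynomial ℂ[X]}
    {A : Fin n → ℂ[X]} (hyp : HypP n e P A) {Z₁ : Finset ℂ} {γ : Fin m → Pth}
    (hγ : ∀ k, OnU P A Z₁ (γ k)) (R₀ : ℝ) :
    ∃ (B R R' : ℝ) (y : Fin n → ℂ → ℂ), R₀ ≤ R ∧ (∀ t ∈ Z₁, ‖t‖ ≤ R) ∧
      Ctx e P A Z₁ γ B R R' y := by
  classical
  -- bound for the paths
  have hb : ∀ k, ∃ b : ℝ, ∀ θ ∈ Set.Icc (0:ℝ) 1, ‖(γ k).x θ‖ ≤ b ∧ ‖(γ k).y θ‖ ≤ b := by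
    intro k
    obtain ⟨b₁, h₁⟩ := isCompact_Icc.exists_bound_of_continuousOn
      (s := Set.Icc (0:ℝ) 1) (γ k).hx.continuous.continuousOn
    obtain ⟨b₂, h₂⟩ := isCompact_Icc.exists_bound_of_continuousOn
      (s := Set.Icc (0:ℝ) 1) (γ k).hy.continuous.continuousOn
    exact ⟨max b₁ b₂, fun θ hθ => ⟨(h₁ θ hθ).trans (le_max_left _ _),
      (h₂ θ hθ).trans (le_max_right _ _)⟩⟩
  choose b hb using hb
  set B : ℝ := 1 + ∑ k, |b k| with hBd
  have hBpos : 0 < B := by
    have : 0 ≤ ∑ k, |b k| := Finset.sum_nonneg (fun k _ => abs_nonneg _)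
    linarith
  have hbB : ∀ k, b k ≤ B := by
    intro k
    have h1 : |b k| ≤ ∑ k, |b k| :=
      Finset.single_le_sum (f := fun k => |b k|) (fun k _ => abs_nonneg _) (Finset.mem_univ k)
    have h2 := le_abs_self (b k)
    linarith
  set C₁ : ℝ := ∑ t ∈ Z₁, ‖t‖ with hC₁
  have hC : ∀ t ∈ Z₁, ‖t‖ ≤ C₁ := fun t ht =>
    Finset.single_le_sum (f := fun t => ‖t‖) (fun t _ => norm_nonneg t) ht
  obtain ⟨R₁, R₁', y, h1, h2, hbr, hasy⟩ := hQ' n e P A hyp (max (max B R₀) C₁)
  -- the matrix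
  have hMd : ∀ l i, ContDiffOn ℝ 1 (fun t => MM e A y t l i) {t | R₁ < ‖t‖} := by
    intro l i
    unfold MM
    apply ContDiffOn.sub
    · apply ContDiffOn.log
      · have h3 : DifferentiableOn ℂ (fun t => y i t - (A l).eval t) {t | R₁ < ‖t‖} :=
          (hbr.diff i).sub (A l).differentiable.differentiableOn
        have h4 : ContDiffOn ℝ 1 (fun t => y i t - (A l).eval t) {t | R₁ < ‖t‖} :=
          (h3.contDiffOn (isOpen_ext R₁)).restrict_scalars ℝ
        exact h4.norm ℝ (fun t ht => sub_ne_zero.2 (hasy.ne l i t ht))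
      · intro t ht
        exact norm_ne_zero_iff.2 (sub_ne_zero.2 (hasy.ne l i t ht))
    · apply ContDiffOn.mul contDiffOn_const
      have hne : ∀ t ∈ {t : ℂ | R₁ < ‖t‖}, t ≠ 0 := by
        intro t ht h
        have ht' : R₁ < ‖t‖ := ht
        rw [h, norm_zero] at ht'
        have := hbr.Rpos
        linarith
      apply ContDiffOn.log
      · exact contDiffOn_id.norm ℝ hne
      · intro t ht
        exact norm_ne_zero_iff.2 (hne t ht)
  obtain ⟨R₂, h3, hdet, hinv⟩ := hM n (MM e A y) R₁ hbr.Rpos hMd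
    (fun l => hasy.diag l) (fun l i hli => hasy.off l i hli)
  obtain ⟨R₂', h4, h5, hfar⟩ := hB5 P hyp.monic (max R₂ (max R₁' B))
  have hB1 : B ≤ R₁ := ((le_max_left _ _).trans (le_max_left _ _)).trans h1
  refine ⟨B, R₂, R₂', y, ?_, ?_, ?_⟩
  · exact (((le_max_right _ _).trans (le_max_left _ _)).trans h1).trans h3
  · intro t ht
    exact ((hC t ht).trans ((le_max_right _ _).trans h1)).trans h3
  · have hmono : {t : ℂ | R₂ < ‖t‖} ⊆ {t : ℂ | R₁ < ‖t‖} := fun t ht =>
      lt_of_le_of_lt h3 ht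
    refine
      { hyp := hyp
        onU := hγ
        Bpos := hBpos
        bx := fun k θ hθ => ((hb k θ hθ).1).trans (hbB k)
        by' := fun k θ hθ => ((hb k θ hθ).2).trans (hbB k)
        BR := hB1.trans h3
        BR' := ((le_max_right _ _).trans (le_max_right _ _)).trans h4
        br := ?_
        asy := ?_
        det := hdet
        inv := hinv }
    · refine
        { Rpos := lt_of_lt_of_le hbr.Rpos h3
          Rpos' := h5
          diff := fun j => (hbr.diff j).mono hmono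
          fac := fun t ht => hbr.fac t (hmono ht)
          inj := fun t ht => hbr.inj t (hmono ht)
          der := fun j t ht => hbr.der j t (hmono ht)
          inf := hbr.inf
          far := ?_ }
      intro x s hs hx
      exact lt_of_le_of_lt (le_max_left _ _) (hfar x s hs hx)
    · exact
        { ne := fun l i t ht => hasy.ne l i t (hmono ht)
          diag := hasy.diag
          off := hasy.off }

theorem final_of (hRg : RgSub) (hLI : LogInt) (hWw : WwSub) (hQ : QqDiff) (hMo : Moment)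
    (hMS : MomS) (hPa : Parts) (hKL : KeyLoc) (hKG : KeyGlob) (hB5 : B5) (hF : FinKer)
    (hExt : Ext) (hBr : BrEx) (hM : MatInv) : Final := by
  intro n e P A hyp K hK Z₁ m γ hγ hind R₀
  obtain ⟨B, R, R', y, hR₀, hZ₁, c⟩ := ctx_ex hBr hM hB5 hyp hγ R₀
  obtain ⟨Z, S, hZ, hS, hZS, hker⟩ := choose_ZS hRg hLI hWw hQ hMo hMS hPa hKL hKG hB5 hF hExt c
    hind hK
  have hZ' : ∀ t ∈ Z, R < ‖t‖ := fun t ht => (hZ t ht).2
  have hS' : ∀ s ∈ S, R' < ‖s‖ := fun s hs => (hS s hs).2
  refine ⟨Z, S, fun t ht => (hZ t ht).1, fun s hs => (hS s hs).1, ?_, ?_, hZS,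
    NN_finite c hZ' hS', final_dual hRg hWw c hZ' hS' hZ₁ hker⟩
  · intro p hp
    obtain ⟨h1, j, hj⟩ := NN_branch c hZ' hS' hp
    refine ⟨lt_of_le_of_lt hR₀ h1, ?_, ?_⟩
    · rw [hj]
      exact der_y c h1 j
    · intro l
      exact sub_ne_zero.1 (U_ne c hZ' hS' hp l)
  · intro s hs x hx
    exact der_x c (hS' s hs) hx

end Pool.Agent.T9h40.GP
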