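import Mathlib

/-!
# Regulators on small open subsets of plane curves: definitions

Curve `P(x,y) = 0`, `P ∈ ℂ[x][y]`, with `n` distinct branches `y_l(t) ~ α_l t^e` at infinity.
-/

open Polynomial Filter Topology Bornology

namespace Pool.Agent.T9h40.GP

/-- A closed `C¹` path in `ℂ²` (parametrised by `[0,1]`). -/
structure Pth where
  x : ℝ → ℂ
  y : ℝ → ℂ
  hx : ContDiff ℝ 1 x
  hy : ContDiff ℝ 1 y
  cx : x 0 = x 1
  cy : y 0 = y 1

/-- `∫ d arg F` over `[0,1]`. -/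
noncomputable def ww (F : ℝ → ℂ) : ℝ := ∫ θ in (0:ℝ)..1, (deriv F θ / F θ).im

/-- The regulator integral `∫ log|F| d arg G - log|G| d arg F` over `[0,1]`. -/
noncomputable def rg (F G : ℝ → ℂ) : ℝ :=
  ∫ θ in (0:ℝ)..1,
    (Real.log ‖F θ‖ * (deriv G θ / G θ).im - Real.log ‖G θ‖ * (deriv F θ / F θ).im)

/-- `∫ h(θ) log(1 - x(θ) τ) dθ` over `[0,1]`, principal branch (used for `|x τ| < 1`). -/
noncomputable def qq (h x : ℝ → ℂ) (τ : ℂ) : ℂ :=
  ∫ θ in (0:ℝ)..1, h θ * Complex.log (1 - x θ * τ)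

/-- The hypotheses on the plane curve: `P` is monic of degree `n ≥ 2` in `y`, its Newton polygon is
below the weighted degree `e n` (`x` of weight 1, `y` of weight `e ≥ 1`), and there are `n`
polynomials `A_l` of degree `e` with distinct leading coefficients (the polynomial parts of the `n`
branches `y_l` at infinity), characterised by `deg P(x, A_l(x)) < e (n-1)`; `P(x, A_l(x)) ≠ 0`. -/
structure HypP (n e : ℕ) (P : Polynomial ℂ[X]) (A : Fin n → ℂ[X]) : Prop where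
  n2 : 2 ≤ n
  e1 : 1 ≤ e
  monic : P.Monic
  deg : P.natDegree = n
  wt : ∀ i, i < n → (P.coeff i).natDegree ≤ e * (n - i)
  degA : ∀ l, (A l).natDegree = e
  inj : Function.Injective (fun l => (A l).leadingCoeff)
  ne : ∀ l, P.eval (A l) ≠ 0
  low : ∀ l, (P.eval (A l)).natDegree < e * (n - 1)

/-- The functions whose symbols are used: the constant `2`, `y - A_l(x)`, `x - t`, `y - s`. -/
inductive Fn (n : ℕ) where
  | two : Fn n
  | U (l : Fin n) : Fn n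
  | X (t : ℂ) : Fn n
  | Y (s : ℂ) : Fn n

/-- The value of such a function at `(x, y)`. -/
noncomputable def Fn.val {n : ℕ} (A : Fin n → ℂ[X]) : Fn n → ℂ → ℂ → ℂ
  | .two, _, _ => 2
  | .U l, x, y => y - (A l).eval x
  | .X t, x, _ => x - t
  | .Y s, _, y => y - s

/-- Units on the open curve: `x - t` only for `t ∈ Z`, `y - s` only for `s ∈ S`. -/
def Fn.Adm {n : ℕ} (Z S : Finset ℂ) : Fn n → Prop
  | .two => True
  | .U _ => True
  | .X t => t ∈ Z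
  | .Y s => s ∈ S

/-- The regulator of the symbol `{f, g}` along `γ`. -/
noncomputable def rgv {n : ℕ} (A : Fin n → ℂ[X]) (f g : Fn n) (γ : Pth) : ℝ :=
  rg (fun θ => f.val A (γ.x θ) (γ.y θ)) (fun θ => g.val A (γ.x θ) (γ.y θ))

open Classical in
/-- `log` of the absolute value of the tame symbol of `{f, g}` at a point `p`, for functions with at
most simple zeros at `p` (and not both vanishing there). -/
noncomputable def tm {n : ℕ} (A : Fin n → ℂ[X]) (f g : Fn n) (p : ℂ × ℂ) : ℝ :=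
  (if g.val A p.1 p.2 = 0 then Real.log ‖f.val A p.1 p.2‖ else 0)
    - (if f.val A p.1 p.2 = 0 then Real.log ‖g.val A p.1 p.2‖ else 0)

/-- The points of the curve over `x ∈ Z` or `y ∈ S`. -/
def NN (P : Polynomial ℂ[X]) (Z S : Finset ℂ) : Set (ℂ × ℂ) :=
  {p | evalEval p.1 p.2 P = 0 ∧ (p.1 ∈ Z ∨ p.2 ∈ S)}

/-- The closed path `γ` lies on the curve, avoids the zeros of all `y - A_l(x)` and the fibres over
`Z₁`. -/
def OnU {n : ℕ} (P : Polynomial ℂ[X]) (A : Fin n → ℂ[X]) (Z₁ : Finset ℂ) (γ : Pth) : Prop :=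
  ∀ θ, evalEval (γ.x θ) (γ.y θ) P = 0 ∧ (∀ l, γ.y θ ≠ (A l).eval (γ.x θ)) ∧ γ.x θ ∉ Z₁

/-- The paths `γ_k` are `ℝ`-linearly independent in homology: no nonzero real combination has zero
periods on all forms `x^i y^j dx`, `x^i d log (y - A_l(x))`, `y^j dx/(x-t)` (`t ∈ Z₁`). -/
def Indep {n m : ℕ} (A : Fin n → ℂ[X]) (Z₁ : Finset ℂ) (γ : Fin m → Pth) : Prop :=
  ∀ a : Fin m → ℝ,
    (∀ i j : ℕ, ∑ k, (a k : ℂ) *
      ∫ θ in (0:ℝ)..1, (γ k).x θ ^ i * (γ k).y θ ^ j * deriv (γ k).x θ = 0) →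
    (∀ (l : Fin n) (i : ℕ), ∑ k, (a k : ℂ) *
      ∫ θ in (0:ℝ)..1, (γ k).x θ ^ i *
        (deriv (fun θ => (γ k).y θ - (A l).eval ((γ k).x θ)) θ /
          ((γ k).y θ - (A l).eval ((γ k).x θ))) = 0) →
    (∀ t ∈ Z₁, ∀ j : ℕ, ∑ k, (a k : ℂ) *
      ∫ θ in (0:ℝ)..1, (γ k).y θ ^ j * (deriv (γ k).x θ / ((γ k).x θ - t)) = 0) →
    a = 0

/-- The target theorem. -/
def Final : Prop :=
  ∀ (n e : ℕ) (P : Polynomial ℂ[X]) (A : Fin n → ℂ[X]), HypP n e P A →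
  ∀ (K : Set ℂ), Dense K → ∀ (Z₁ : Finset ℂ) (m : ℕ) (γ : Fin m → Pth),
    (∀ k, OnU P A Z₁ (γ k)) → Indep A Z₁ γ → ∀ R₀ : ℝ,
    ∃ Z S : Finset ℂ, (Z : Set ℂ) ⊆ K ∧ (S : Set ℂ) ⊆ K ∧
      -- the removed points are far away, simple, and the two kinds are disjoint
      (∀ p ∈ NN P Z S, R₀ < ‖p.1‖ ∧ evalEval p.1 p.2 (derivative P) ≠ 0 ∧
        ∀ l, p.2 ≠ (A l).eval p.1) ∧
      (∀ s ∈ S, ∀ x, evalEval x s P = 0 → (derivative (P.eval (C s))).eval x ≠ 0) ∧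
      (∀ t ∈ Z, ∀ s ∈ S, evalEval t s P ≠ 0) ∧
      (NN P Z S).Finite ∧
      Submodule.span ℝ {v : (Fin m → ℝ) × (NN P Z S → ℝ) | ∃ f g : Fn n,
        f.Adm (Z ∪ Z₁) S ∧ g.Adm (Z ∪ Z₁) S ∧
        v = (fun k => rgv A f g (γ k), fun p => tm A f g p.1)} = ⊤

end Pool.Agent.T9h40.GP
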