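import Pool.Agent.T9h40.GP.Defs

/-!
# Pieces
-/

open Polynomial Filter Topology Bornology

namespace Pool.Agent.T9h40.GP

/-! ## A: integrals along paths -/

/-- A1 -/
def RgSub : Prop :=
  ∀ (F x : ℝ → ℂ) (t : ℂ), ContDiff ℝ 1 F → (∀ θ ∈ Set.Icc (0:ℝ) 1, F θ ≠ 0) → F 0 = F 1 →
    ContDiff ℝ 1 x → x 0 = x 1 → (∀ θ ∈ Set.Icc (0:ℝ) 1, ‖x θ‖ < ‖t‖) →
    rg F (fun θ => x θ - t) =
      - Real.log ‖t‖ * ww F - (qq (fun θ => deriv F θ / F θ) x t⁻¹).im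

/-- A2: `∫ F'/F` is `i` times the variation of the argument. -/
def LogInt : Prop :=
  ∀ F : ℝ → ℂ, ContDiff ℝ 1 F → (∀ θ ∈ Set.Icc (0:ℝ) 1, F θ ≠ 0) → F 0 = F 1 →
    ∫ θ in (0:ℝ)..1, deriv F θ / F θ = Complex.I * ww F

/-- A3 -/
def WwSub : Prop :=
  ∀ (x : ℝ → ℂ) (t : ℂ), ContDiff ℝ 1 x → x 0 = x 1 → (∀ θ ∈ Set.Icc (0:ℝ) 1, ‖x θ‖ < ‖t‖) →
    ww (fun θ => x θ - t) = 0 ∧ ∫ θ in (0:ℝ)..1, deriv x θ / (x θ - t) = 0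

/-- A4 -/
def QqDiff : Prop :=
  ∀ (h x : ℝ → ℂ) (B : ℝ), ContinuousOn h (Set.Icc 0 1) → ContinuousOn x (Set.Icc 0 1) → 0 < B →
    (∀ θ ∈ Set.Icc (0:ℝ) 1, ‖x θ‖ ≤ B) →
    DifferentiableOn ℂ (fun t => qq h x t⁻¹) {t | B < ‖t‖} ∧
    Tendsto (fun t => qq h x t⁻¹) (cobounded ℂ) (𝓝 0)

/-- A5: moments -/
def Moment : Prop :=
  ∀ (m : ℕ) (a : Fin m → ℝ) (h x : Fin m → ℝ → ℂ) (B R : ℝ) (K : Set ℂ), Dense K → 0 < B → B ≤ R →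
    (∀ k, ContinuousOn (h k) (Set.Icc 0 1)) → (∀ k, ContinuousOn (x k) (Set.Icc 0 1)) →
    (∀ k, ∀ θ ∈ Set.Icc (0:ℝ) 1, ‖x k θ‖ ≤ B) →
    (∀ t ∈ K, R < ‖t‖ → (∑ k, (a k : ℂ) * qq (h k) (x k) t⁻¹).im = 0) →
    ∀ j : ℕ, 1 ≤ j → ∑ k, (a k : ℂ) * ∫ θ in (0:ℝ)..1, h k θ * x k θ ^ j = 0

/-- A6: moments from Cauchy transforms -/
def MomS : Prop :=
  ∀ (m : ℕ) (a : Fin m → ℝ) (g y : Fin m → ℝ → ℂ) (B R : ℝ) (K : Set ℂ), Dense K → 0 < B → B ≤ R →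
    (∀ k, ContinuousOn (g k) (Set.Icc 0 1)) → (∀ k, ContinuousOn (y k) (Set.Icc 0 1)) →
    (∀ k, ∀ θ ∈ Set.Icc (0:ℝ) 1, ‖y k θ‖ ≤ B) →
    (∀ s ∈ K, R < ‖s‖ → ∑ k, (a k : ℂ) * ∫ θ in (0:ℝ)..1, g k θ / (y k θ - s) = 0) →
    ∀ i : ℕ, ∑ k, (a k : ℂ) * ∫ θ in (0:ℝ)..1, g k θ * y k θ ^ i = 0

/-- A7: integration by parts -/
def Parts : Prop :=
  ∀ γ : Pth, (∀ i : ℕ, ∫ θ in (0:ℝ)..1, γ.x θ ^ i * deriv γ.x θ = 0) ∧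
    ∀ i j : ℕ, ((i : ℂ) + 1) * ∫ θ in (0:ℝ)..1, γ.x θ ^ i * γ.y θ ^ (j + 1) * deriv γ.x θ =
      - ((j : ℂ) + 1) * ∫ θ in (0:ℝ)..1, γ.x θ ^ (i + 1) * γ.y θ ^ j * deriv γ.y θ

/-! ## B: branches at infinity -/

/-- The branches at infinity. -/
structure Br (n : ℕ) (P : Polynomial ℂ[X]) (R R' : ℝ) (y : Fin n → ℂ → ℂ) : Prop where
  Rpos : 0 < R
  Rpos' : 0 < R'
  diff : ∀ j, DifferentiableOn ℂ (y j) {t | R < ‖t‖}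
  fac : ∀ t, R < ‖t‖ → ∀ s, evalEval t s P = ∏ j, (s - y j t)
  inj : ∀ t, R < ‖t‖ → Function.Injective (fun j => y j t)
  der : ∀ j t, R < ‖t‖ → deriv (y j) t ≠ 0
  inf : ∀ j, Tendsto (fun t => ‖y j t‖) (cobounded ℂ) atTop
  far : ∀ x s, R' < ‖s‖ → evalEval x s P = 0 → R < ‖x‖

/-- Asymptotics of the functions `y - A_l(x)` on the branches. -/
structure Asy (n e : ℕ) (A : Fin n → ℂ[X]) (R : ℝ) (y : Fin n → ℂ → ℂ) : Prop where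
  ne : ∀ l i t, R < ‖t‖ → y i t ≠ (A l).eval t
  diag : ∀ l, Tendsto (fun t => Real.log ‖y l t - (A l).eval t‖ - e * Real.log ‖t‖)
    (cobounded ℂ) atBot
  off : ∀ l i, l ≠ i → ∃ c, Tendsto
    (fun t => Real.log ‖y i t - (A l).eval t‖ - e * Real.log ‖t‖) (cobounded ℂ) (𝓝 c)

/-- B1: for large `t` the polynomial `P(t, ·)` splits with roots `y_l(t) ~ α_l t^e`. -/
def B1 : Prop :=
  ∀ (n e : ℕ) (P : Polynomial ℂ[X]) (A : Fin n → ℂ[X]), HypP n e P A →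
    ∃ (R : ℝ) (y : Fin n → ℂ → ℂ), 0 < R ∧
      (∀ t, R < ‖t‖ → ∀ s, evalEval t s P = ∏ j, (s - y j t)) ∧
      ∀ l, Tendsto (fun t => y l t / t ^ e) (cobounded ℂ) (𝓝 (A l).leadingCoeff)

/-- B2: the branches are holomorphic for large `t`. -/
def B2 : Prop :=
  ∀ (n e : ℕ) (P : Polynomial ℂ[X]) (A : Fin n → ℂ[X]), HypP n e P A →
    ∀ (R : ℝ) (y : Fin n → ℂ → ℂ), 0 < R →
      (∀ t, R < ‖t‖ → ∀ s, evalEval t s P = ∏ j, (s - y j t)) →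
      (∀ l, Tendsto (fun t => y l t / t ^ e) (cobounded ℂ) (𝓝 (A l).leadingCoeff)) →
      ∃ R₁, R ≤ R₁ ∧ (∀ j, DifferentiableOn ℂ (y j) {t | R₁ < ‖t‖}) ∧
        ∀ t, R₁ < ‖t‖ → Function.Injective (fun j => y j t)

/-- B3: the derivative of a function `~ α t^e` does not vanish for large `t`. -/
def B3 : Prop :=
  ∀ (f : ℂ → ℂ) (R : ℝ) (e : ℕ) (α : ℂ), 0 < R → 1 ≤ e → α ≠ 0 →
    DifferentiableOn ℂ f {t | R < ‖t‖} → Tendsto (fun t => f t / t ^ e) (cobounded ℂ) (𝓝 α) →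
    (∃ R₁, R ≤ R₁ ∧ ∀ t, R₁ < ‖t‖ → deriv f t ≠ 0) ∧
    Tendsto (fun t => ‖f t‖) (cobounded ℂ) atTop

/-- B4 -/
def B4 : Prop :=
  ∀ (n e : ℕ) (P : Polynomial ℂ[X]) (A : Fin n → ℂ[X]), HypP n e P A →
    ∀ (R : ℝ) (y : Fin n → ℂ → ℂ), 0 < R →
      (∀ t, R < ‖t‖ → ∀ s, evalEval t s P = ∏ j, (s - y j t)) →
      (∀ l, Tendsto (fun t => y l t / t ^ e) (cobounded ℂ) (𝓝 (A l).leadingCoeff)) →
      ∃ R₁, R ≤ R₁ ∧ Asy n e A R₁ y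

/-- B5: large `y` forces large `x`. -/
def B5 : Prop :=
  ∀ (P : Polynomial ℂ[X]), P.Monic → ∀ R : ℝ, ∃ R' : ℝ, R ≤ R' ∧ 0 < R' ∧
    ∀ x s, R' < ‖s‖ → evalEval x s P = 0 → R < ‖x‖

/-- B: all together (from B1-B5). -/
def BrEx : Prop :=
  ∀ (n e : ℕ) (P : Polynomial ℂ[X]) (A : Fin n → ℂ[X]), HypP n e P A → ∀ R₀ : ℝ,
    ∃ (R R' : ℝ) (y : Fin n → ℂ → ℂ), R₀ ≤ R ∧ R₀ ≤ R' ∧ Br n P R R' y ∧ Asy n e A R y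

/-! ## M: inverting the matrix -/

def MatInv : Prop :=
  ∀ (n : ℕ) (M : ℂ → Matrix (Fin n) (Fin n) ℝ) (R : ℝ), 0 < R →
    (∀ l i, ContDiffOn ℝ 1 (fun t => M t l i) {t | R < ‖t‖}) →
    (∀ l, Tendsto (fun t => M t l l) (cobounded ℂ) atBot) →
    (∀ l i, l ≠ i → ∃ c, Tendsto (fun t => M t l i) (cobounded ℂ) (𝓝 c)) →
    ∃ R₁, R ≤ R₁ ∧ (∀ t, R₁ < ‖t‖ → IsUnit (M t).det) ∧
      ∀ b : Fin n → ℂ → ℝ, (∀ l, ContDiffOn ℝ 1 (b l) {t | R₁ < ‖t‖}) →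
        (∀ l, Tendsto (b l) (cobounded ℂ) (𝓝 0)) →
        ∀ j, ContDiffOn ℝ 1 (fun t => ((M t)⁻¹.mulVec (fun l => b l t)) j) {t | R₁ < ‖t‖} ∧
          Tendsto (fun t => ((M t)⁻¹.mulVec (fun l => b l t)) j) (cobounded ℂ) (𝓝 0)

/-! ## K: the key lemma -/

/-- The `x`-coordinates of the points with `y = s`. -/
noncomputable def rts (P : Polynomial ℂ[X]) (s : ℂ) : Finset ℂ := (P.eval (C s)).roots.toFinset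

/-- K1: a logarithmic singularity can only be cancelled if the coefficient is stationary. -/
def Loc : Prop :=
  ∀ (L B : ℂ → ℝ) (L' B' : ℂ →L[ℝ] ℝ) (x₁ : ℂ) (μ : ℝ), HasFDerivAt L L' x₁ → HasFDerivAt B B' x₁ →
    (∀ᶠ t in 𝓝[≠] x₁, (L t - μ) * Real.log ‖t - x₁‖ = B t) → μ = L x₁ ∧ L' = 0

/-- K2 (from K1) -/
def KeyLoc : Prop :=
  ∀ (n : ℕ) (P : Polynomial ℂ[X]) (R R' : ℝ) (y : Fin n → ℂ → ℂ), Br n P R R' y →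
    ∀ (L : Fin n → ℂ → ℝ) (G : ℂ → ℝ) (s : ℂ) (μ : ℂ → ℝ), R' < ‖s‖ →
    (∀ j t, R < ‖t‖ → DifferentiableAt ℝ (L j) t) → (∀ t, R < ‖t‖ → DifferentiableAt ℝ G t) →
    (∀ t, R < ‖t‖ → evalEval t s P ≠ 0 →
      - G t + ∑ j, L j t * Real.log ‖y j t - s‖ = ∑ q ∈ rts P s, μ q * Real.log ‖q - t‖) →
    ∀ q ∈ rts P s, ∀ j, y j q = s → μ q = L j q ∧ fderiv ℝ (L j) q = 0

/-- K3 -/
def KeyGlob : Prop :=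
  ∀ (n : ℕ) (P : Polynomial ℂ[X]) (R R' : ℝ) (y : Fin n → ℂ → ℂ) (K : Set ℂ), Br n P R R' y →
    Dense K → ∀ (L : Fin n → ℂ → ℝ), (∀ j, ContDiffOn ℝ 1 (L j) {t | R < ‖t‖}) →
    (∀ j, Tendsto (L j) (cobounded ℂ) (𝓝 0)) →
    (∀ j t, R < ‖t‖ → y j t ∈ K → R' < ‖y j t‖ → fderiv ℝ (L j) t = 0) →
    ∃ R₂, R ≤ R₂ ∧ ∀ j t, R₂ < ‖t‖ → L j t = 0

/-! ## F: linear algebra -/

def FinKer : Prop :=
  ∀ (V : Type) [AddCommGroup V] [Module ℝ V] [FiniteDimensional ℝ V] (ι : Type)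
    (W : ι → Submodule ℝ V), (∀ v, (∀ i, v ∈ W i) → v = 0) →
    ∃ s : Finset ι, ∀ v, (∀ i ∈ s, v ∈ W i) → v = 0

/-- C: the identity extends from a dense set of `t` (minus finitely many) to all `t`. -/
def Ext : Prop :=
  ∀ (n : ℕ) (P : Polynomial ℂ[X]) (R R' : ℝ) (y : Fin n → ℂ → ℂ), Br n P R R' y →
    ∀ (K E : Set ℂ), Dense K → E.Finite →
    ∀ (L : Fin n → ℂ → ℝ) (G : ℂ → ℝ) (s : ℂ) (μ : ℂ → ℝ), R' < ‖s‖ →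
    (∀ j t, R < ‖t‖ → DifferentiableAt ℝ (L j) t) → (∀ t, R < ‖t‖ → DifferentiableAt ℝ G t) →
    (∀ t ∈ K, R < ‖t‖ → t ∉ E → evalEval t s P ≠ 0 →
      - G t + ∑ j, L j t * Real.log ‖y j t - s‖ = ∑ q ∈ rts P s, μ q * Real.log ‖q - t‖) →
    ∀ t, R < ‖t‖ → evalEval t s P ≠ 0 →
      - G t + ∑ j, L j t * Real.log ‖y j t - s‖ = ∑ q ∈ rts P s, μ q * Real.log ‖q - t‖

end Pool.Agent.T9h40.GP
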